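import Pool.Agent.W761.CP.All
import Pool.Agent.W762.CP.IN2

/-!
# Eigenvalue sums for complex potentials: the lower bound
-/

set_option autoImplicit false

open MeasureTheory
open scoped ENNReal FourierTransform SchwartzMap InnerProductSpace

namespace Pool.Agent.W761.CP
open Pool.Agent.Helper209.CX (Ed L2d InH1 dirichlet IsHu)

theorem lt_all : S_LT := by
  have hFT : S_FT := W856.CP.ft
  have hIBP : S_IBP := W63.CP.ibp hFT
  have hLEI : S_LEI := W503.CP.lei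
  have hE1 : S_E1 := W597.CP.e1 hLEI
  have hE0 : S_E0 := W597.CP.e0
  have hE2 : S_E2 := W376.CP.e2 hLEI hIBP
  have hAGM : S_AGM := W975.CP.agm hE1
  have hOUT : S_OUT := W53.CP.out hE1 hE0
  have hPOT : S_POT := W999.CP.pot
  have hCOM : S_COM := W918.CP.com
  have hCM1 : S_CM1 := W918.CP.cm1
  have hAPR : S_APR := W155.CP.apr hAGM hOUT hE2 hPOT hCOM hCM1
  have hQUA : S_QUA := W513.CP.qua hAGM hE2 hE0 hPOT hCOM hCM1
  have hPOI : S_POI := W797.CP.poi (W308.CP.den hFT)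
  have hIN1 : S_IN1 := W768.CP.in1 W403.CP.gap W357.CP.sub W357.CP.sym hE0 hPOT
  have HIN2 : S_IN2 := W762.CP.in2 W903.CP.rz W701.CP.onb W692.CP.comp W99.CP.ext W804.CP.res
    W357.CP.sub W357.CP.sym hE0 (W657.CP.kap hE0) hPOT
  have hIN : S_IN := W479.CP.inn hPOI W446.CP.Bump.bump hIN1 HIN2
  exact lt hIN hAPR hQUA (W657.CP.kap hE0) W903.CP.rz W196.CP.mat W99.CP.ext W804.CP.res
    W357.CP.sub W357.CP.sym hE0 hPOI hPOT

theorem infDist_pos (E : ℂ) (hE : 1 / 2 ≤ E.im) :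
    0 < Metric.infDist E {z : ℂ | 0 ≤ z.re ∧ z.im = 0} := by
  have hc : IsClosed {z : ℂ | 0 ≤ z.re ∧ z.im = 0} :=
    (isClosed_le continuous_const Complex.continuous_re).inter
      (isClosed_eq Complex.continuous_im continuous_const)
  have hne : ({z : ℂ | 0 ≤ z.re ∧ z.im = 0} : Set ℂ).Nonempty := ⟨0, by simp⟩
  rw [← hc.notMem_iff_infDist_pos hne]
  rintro ⟨-, h⟩
  linarith

theorem final (d : ℕ) (hd : 1 ≤ d) : ∃ V : Ed d → ℂ, Measurable V ∧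
    (∀ p : ℝ, 1 ≤ p → MemLp V (ENNReal.ofReal p) volume) ∧
    (∃ R : ℝ, ∀ x, R < ‖x‖ → V x = 0) ∧
    (∀ x, 0 ≤ (V x).re ∧ 0 ≤ (V x).im ∧ (V x).im ≤ 1) ∧
    ∀ γ σ : ℝ, 0 < γ → 0 ≤ σ → σ ≤ d / 2 → ∃ c' : ℝ, 0 < c' ∧ ∀ K : ℕ, ∃ h₀ : ℝ, 0 < h₀ ∧
      ∀ h : ℝ, 0 < h → h < h₀ → ∀ G : ℂ → Submodule ℂ (L2d d),
        (∀ E u, u ∈ G E ↔ ∃ (n : ℕ) (c : ℕ → L2d d), c 0 = u ∧ c n = 0 ∧
          ∀ i < n, IsHu h V (c i) (c (i + 1) + E • c i)) →
        (∀ E, 0 < Metric.infDist E {z : ℂ | 0 ≤ z.re ∧ z.im = 0} → Module.Finite ℂ (G E)) →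
        ENNReal.ofReal (c' * K * h ^ (-(d : ℝ))) ≤
          ∑' E : ℂ, ((Module.finrank ℂ (G E) : ℕ) : ℝ≥0∞) * ENNReal.ofReal
            (‖E‖ ^ (-σ) * Metric.infDist E {z : ℂ | 0 ≤ z.re ∧ z.im = 0} ^ (γ + σ)) := by
  classical
  obtain ⟨W, hWm, hW0, hWQ, ⟨R, hWR⟩, hWp, hLev⟩ := W933.CP.lev d hd
  have hFT : S_FT := W856.CP.ft
  have hfb : FB fun x => (W x : ℂ) := by
    refine W168.CP.fbl hFT d _ hd (Complex.measurable_ofReal.comp hWm) ?_
    exact hWp _ (by linarith [(Nat.cast_nonneg d : (0 : ℝ) ≤ d)])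
  have hWall : Wall W := ⟨hfb, hW0, hWQ⟩
  have hGm : MeasurableSet (Gd d) := by
    have : Gd d = ⋂ k, {x : Ed d | 0 ≤ x k ∧ x k ≤ 1} := by
      ext x; simp [Gd]
    rw [this]
    refine MeasurableSet.iInter fun k => ?_
    have hk : Measurable fun x : Ed d => x k := by fun_prop
    exact (measurableSet_le measurable_const hk).inter (measurableSet_le hk measurable_const)
  have hGb : ∀ x ∈ Gd d, ‖x‖ ≤ Real.sqrt d := by
    intro x hx
    rw [EuclideanSpace.norm_eq]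
    apply Real.sqrt_le_sqrt
    calc ∑ i, ‖x i‖ ^ 2 ≤ ∑ _i : Fin d, (1 : ℝ) := by
          refine Finset.sum_le_sum fun i _ => ?_
          rw [Real.norm_eq_abs, sq_abs]
          have := hx i
          nlinarith
      _ = d := by simp
  have hVeq : VV W = fun x => (W x : ℂ) + (Gd d).indicator (fun _ => Complex.I) x := by
    funext x
    unfold VV
    by_cases hx : x ∈ Gd d
    · rw [if_pos hx, Set.indicator_of_mem hx]
    · rw [if_neg hx, Set.indicator_of_notMem hx]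
  have hGfin : volume (Gd d) < ⊤ := by
    refine (measure_mono (fun x hx => ?_)).trans_lt
      (measure_closedBall_lt_top (x := (0 : Ed d)) (r := Real.sqrt d))
    rw [mem_closedBall_zero_iff]; exact hGb x hx
  have hVm : Measurable (VV W) := by
    rw [hVeq]
    exact (Complex.measurable_ofReal.comp hWm).add (measurable_const.indicator hGm)
  refine ⟨VV W, hVm, ?_, ⟨max R (Real.sqrt d), ?_⟩, ?_, ?_⟩
  · intro p hp
    rw [hVeq]
    refine (hWp p hp).add ?_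
    exact memLp_indicator_const _ hGm _ (Or.inr hGfin.ne)
  · intro x hx
    rw [max_lt_iff] at hx
    unfold VV
    rw [hWR x hx.1, if_neg (fun hxG => absurd (hGb x hxG) (not_le.2 hx.2))]
    simp
  · intro x
    refine ⟨by rw [VV_re]; exact hW0 x, (VV_im W x).1, (VV_im W x).2⟩
  · intro γ σ hγ hσ hσd
    obtain ⟨c, hc, hLT⟩ := lt_all d hd
    obtain ⟨c', hc', hS⟩ := W45.CP.sum d γ σ c 24 hd hγ hσ hσd hc (by norm_num)
    refine ⟨c', hc', fun K => ?_⟩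
    -- one level
    have hM : ∀ k : ℕ, (24 : ℝ) ≤ 4 ^ k * 24 := fun k => by
      have : (1 : ℝ) ≤ 4 ^ k := one_le_pow₀ (by norm_num)
      linarith
    have hlev : ∀ k : ℕ, ∃ h₀ : ℝ, 0 < h₀ ∧ ∀ h : ℝ, 0 < h → h < h₀ →
        ∃ (n : ℕ) (u : Fin n → L2d d) (A : Matrix (Fin n) (Fin n) ℂ),
        c * (4 ^ k * 24 : ℝ) ^ ((d : ℝ) / 2) * h ^ (-(d : ℝ)) ≤ n ∧ LinearIndependent ℂ u ∧
        (∀ j, Hu h (VV W) (u j) (∑ l, A l j • u l)) ∧
        ∀ z ∈ A.charpoly.roots, 1 / 2 ≤ z.im ∧ z.im ≤ 1 ∧ 0 ≤ z.re ∧ z.re ≤ 4 ^ k * 24 := by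
      intro k
      obtain ⟨χ, b, φ, a, hL⟩ := hLev (4 ^ k * 24) (by positivity)
      exact hLT W (4 ^ k * 24) χ b φ a hWall (hM k) hL
    choose t ht0 ht using hlev
    have hVfb : FB (VV W) := by
      obtain ⟨χ, b, φ, a, hL⟩ := hLev 24 (by norm_num)
      exact (W999.CP.pot d W 24 χ b φ a hWall (by norm_num) hL).1
    have hmin : ∃ h₀ : ℝ, 0 < h₀ ∧ ∀ k ∈ Finset.Icc 1 K, h₀ ≤ t k := by
      by_cases hK : (Finset.Icc 1 K).Nonempty
      · refine ⟨(Finset.Icc 1 K).inf' hK t, ?_, fun k hk => Finset.inf'_le _ hk⟩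
        rw [Finset.lt_inf'_iff]
        exact fun k _ => ht0 k
      · refine ⟨1, one_pos, fun k hk => absurd ⟨k, hk⟩ hK⟩
    obtain ⟨h₀, hh₀, hhk⟩ := hmin
    refine ⟨h₀, hh₀, fun h hh hlt G hG hGfinite => ?_⟩
    refine hS K h (fun E => Module.finrank ℂ (G E)) hh fun k hk => ?_
    obtain ⟨n, u, A, hn, hu, hA, hroots⟩ := ht k h hh (hlt.trans_le (hhk k hk))
    obtain ⟨Hs, hHs, hHs0⟩ := W357.CP.sub d h (VV W) hVfb
    have hHU := W381.CP.hu (W63.CP.grad hFT) d h (VV W) hVfb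
    obtain ⟨S, hS1, hS2⟩ := W236.CP.cnt (L2d d) Hs G
      {E | 1 / 2 ≤ E.im ∧ E.im ≤ 1 ∧ 0 ≤ E.re ∧ E.re ≤ 4 ^ k * 24} hHs0
      (fun E v => by
        rw [hG]
        refine exists_congr fun n => exists_congr fun c => and_congr_right fun _ =>
          and_congr_right fun _ => forall₂_congr fun i _ => ?_
        rw [hHs, hHU])
      (fun E hE => hGfinite E (infDist_pos E hE.1)) n u A hu (fun j => (hHs _ _).2 (hA j))
      hroots
    refine ⟨S, hS1, hn.trans ?_⟩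
    exact_mod_cast hS2

end Pool.Agent.W761.CP
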