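import Mathlib
import Pool.Agent.Helper209.CX.DDefs

/-!
# Complex potentials with many eigenvalues: definitions

`H = -h² Δ + V` in `L²(ℝᵈ)`, `V = W + i 1_G`, `G` the unit cube, `W ≥ 0` a wall around `G`.
-/

set_option autoImplicit false

open MeasureTheory
open scoped ENNReal FourierTransform SchwartzMap InnerProductSpace

namespace Pool.Agent.W761.CP
open Pool.Agent.Helper209.CX (Ed L2d InH1 dirichlet IsHu)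

noncomputable section

/-- the `k`th unit vector -/
def ev {d : ℕ} (k : Fin d) : Ed d := EuclideanSpace.single k 1

/-- `g` is the weak gradient of `u` -/
def IsGrad {d : ℕ} (u : L2d d) (g : Fin d → L2d d) : Prop :=
  ∀ (φ : 𝓢(Ed d, ℂ)) (k : Fin d),
    ∫ x, u x * fderiv ℝ (fun y => φ y) x (ev k) = -∫ x, g k x * φ x

open Classical in
/-- the product of the real function `χ` and `u` -/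
def mulR {d : ℕ} (χ : Ed d → ℝ) (u : L2d d) : L2d d :=
  if h : MemLp (fun x => (χ x : ℂ) * u x) 2 volume then h.toLp _ else 0

/-- multipliers: smooth and constant outside a compact set -/
structure Mul {d : ℕ} (χ : Ed d → ℝ) : Prop where
  smooth : ContDiff ℝ ((⊤ : ℕ∞) : WithTop ℕ∞) χ
  supp : ∃ c : ℝ, HasCompactSupport fun x => χ x - c

/-- partial derivative -/
def pd {d : ℕ} (k : Fin d) (χ : Ed d → ℝ) : Ed d → ℝ := fun x => fderiv ℝ χ x (ev k)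

/-- Laplace operator -/
def lap {d : ℕ} (χ : Ed d → ℝ) : Ed d → ℝ := fun x => ∑ k, pd k (pd k χ) x

/-- form bounded potentials -/
def FB {d : ℕ} (V : Ed d → ℂ) : Prop :=
  Measurable V ∧ ∃ C : ℝ, 0 ≤ C ∧ ∀ (u : L2d d) (g : Fin d → L2d d), IsGrad u g →
    Integrable (fun x => ‖V x‖ * ‖u x‖ ^ 2) volume ∧
    ∫ x, ‖V x‖ * ‖u x‖ ^ 2 ≤ C * (‖u‖ ^ 2 + ∑ k, ‖g k‖ ^ 2)

/-- `(-h² Δ + V) u = f` in the sense of forms -/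
def Hu {d : ℕ} (h : ℝ) (V : Ed d → ℂ) (u f : L2d d) : Prop :=
  ∃ g : Fin d → L2d d, IsGrad u g ∧ ∀ (φ : L2d d) (g' : Fin d → L2d d), IsGrad φ g' →
    ((h ^ 2 : ℝ) : ℂ) * (∑ k, ⟪g' k, g k⟫_ℂ) + ∫ x, V x * u x * (starRingEnd ℂ) (φ x) = ⟪φ, f⟫_ℂ

/-! ## Abstract operators -/

/-- `R = (H - z)⁻¹` for the linear relation `H` -/
def IsR {X : Type} [NormedAddCommGroup X] [InnerProductSpace ℂ X] (H : Submodule ℂ (X × X))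
    (z : ℂ) (R : X →L[ℂ] X) : Prop :=
  (∀ f, (R f, f + z • R f) ∈ H) ∧ ∀ u f, (u, f + z • u) ∈ H → u = R f

/-- `H + B` -/
def plusB {X : Type} [NormedAddCommGroup X] [InnerProductSpace ℂ X] (H : Submodule ℂ (X × X))
    (B : X →L[ℂ] X) : Submodule ℂ (X × X) :=
  H.comap ((LinearMap.fst ℂ X X).prod
    (LinearMap.snd ℂ X X - (B : X →ₗ[ℂ] X) ∘ₗ LinearMap.fst ℂ X X))

theorem mem_plusB {X : Type} [NormedAddCommGroup X] [InnerProductSpace ℂ X]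
    (H : Submodule ℂ (X × X)) (B : X →L[ℂ] X) (u f : X) :
    (u, f) ∈ plusB H B ↔ (u, f - B u) ∈ H := Iff.rfl

/-- Riesz projections -/
def S_RZ : Prop := ∀ (X : Type) [NormedAddCommGroup X] [InnerProductSpace ℂ X] [CompleteSpace X]
  (H : Submodule ℂ (X × X)) (z₀ w : ℂ) (ρ K : ℝ) (T B : X →L[ℂ] X), 0 < ρ → 0 ≤ K →
  ρ < ‖w - z₀‖ → IsR H w T →
  (∀ z, ‖z - z₀‖ = ρ → ∃ R, IsR H z R ∧ ‖R‖ ≤ K) →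
  IsCompactOperator B →
  (∃ K' : ℝ, ∀ z, ‖z - z₀‖ ≤ ρ → ∃ R, IsR (plusB H B) z R ∧ ‖R‖ ≤ K') →
  ∃ P : X →L[ℂ] X, (∀ v, P (P v) = P v) ∧ FiniteDimensional ℂ (LinearMap.range (P : X →ₗ[ℂ] X)) ∧
    (∀ v, T (P v) = P (T v)) ∧
    (∀ (v : X) (l : ℂ), v ≠ 0 → P v = v → (v, l • v) ∈ H → ‖l - z₀‖ < ρ) ∧
    (∀ (v r : X) (l : ℂ), ‖l - z₀‖ < ρ → (v, l • v + r) ∈ H →
      ‖P v - v‖ ≤ ρ * K * ‖r‖ / (ρ - ‖l - z₀‖))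

/-- the matrix of the operator on the range of the projection -/
def S_MAT : Prop := ∀ (X : Type) [NormedAddCommGroup X] [InnerProductSpace ℂ X] [CompleteSpace X]
  (H : Submodule ℂ (X × X)) (w : ℂ) (T P : X →L[ℂ] X), (∀ f, ((0 : X), f) ∈ H → f = 0) →
  IsR H w T → (∀ v, P (P v) = P v) → FiniteDimensional ℂ (LinearMap.range (P : X →ₗ[ℂ] X)) →
  (∀ v, T (P v) = P (T v)) →
  ∃ (u : Fin (Module.finrank ℂ (LinearMap.range (P : X →ₗ[ℂ] X))) → X)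
    (A : Matrix (Fin (Module.finrank ℂ (LinearMap.range (P : X →ₗ[ℂ] X))))
      (Fin (Module.finrank ℂ (LinearMap.range (P : X →ₗ[ℂ] X)))) ℂ),
    LinearIndependent ℂ u ∧ (∀ j, P (u j) = u j) ∧ (∀ j, (u j, ∑ l, A l j • u l) ∈ H) ∧
    ∀ l ∈ A.charpoly.roots, ∃ v, v ≠ 0 ∧ P v = v ∧ (v, l • v) ∈ H

/-- for complex symmetric operators an a priori bound gives the resolvent -/
def S_EXT : Prop := ∀ (X : Type) [NormedAddCommGroup X] [InnerProductSpace ℂ X] [CompleteSpace X]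
  (H : Submodule ℂ (X × X)) (J : X → X) (T : X →L[ℂ] X) (z : ℂ) (K : ℝ),
  (∀ x y, J (x + y) = J x + J y) → (∀ (c : ℂ) x, J (c • x) = (starRingEnd ℂ) c • J x) →
  (∀ x, J (J x) = x) → (∀ x y, ⟪J x, J y⟫_ℂ = ⟪y, x⟫_ℂ) →
  (∀ u f v g : X, (u, f) ∈ H → (v, g) ∈ H → ⟪J v, f⟫_ℂ = ⟪J g, u⟫_ℂ) →
  IsR H (-1) T → 0 ≤ K → (∀ u f : X, (u, f + z • u) ∈ H → ‖u‖ ≤ K * ‖f‖) →
  ∃ R, IsR H z R ∧ ‖R‖ ≤ K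

/-- a gap in the spectrum by counting -/
def S_GAP : Prop := ∀ (X : Type) [NormedAddCommGroup X] [InnerProductSpace ℂ X] [CompleteSpace X]
  (H : Submodule ℂ (X × X)) (N : ℕ) (a b : ℝ), 0 < a → a < b →
  (∀ u f v g : X, (u, f) ∈ H → (v, g) ∈ H → ⟪v, f⟫_ℂ = ⟪g, u⟫_ℂ) →
  (∀ (n : ℕ) (w : Fin n → X), LinearIndependent ℂ w →
    (∀ c : Fin n → ℂ, ∃ f : X, (∑ i, c i • w i, f) ∈ H ∧
      (⟪∑ i, c i • w i, f⟫_ℂ).re ≤ 2 * b * ‖∑ i, c i • w i‖ ^ 2) → n ≤ N) →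
  ∃ l : ℝ, a ≤ l ∧ l ≤ b ∧ ∀ v f : X, (v, (l : ℂ) • v + f) ∈ H →
    (b - a) / (8 * (N + 1) * (N + 2)) * ‖v‖ ≤ ‖f‖

/-- on the kernel of the projection the resolvent is small -/
def S_COMP : Prop := ∀ (X : Type) [NormedAddCommGroup X] [InnerProductSpace ℂ X] [CompleteSpace X]
  (H : Submodule ℂ (X × X)) (z₀ : ℂ) (ρ K l : ℝ) (T P : X →L[ℂ] X), 0 < ρ → 0 ≤ K → 0 ≤ l →
  IsR H (-1) T → (∀ v w, ⟪T v, w⟫_ℂ = ⟪v, T w⟫_ℂ) → (∀ v, 0 ≤ (⟪T v, v⟫_ℂ).re) →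
  (∀ v, ‖T v‖ ≤ ‖v‖) → (∀ v, T (P v) = P (T v)) →
  (∀ E : ℝ, 0 ≤ E → E < l → ‖(E : ℂ) - z₀‖ < ρ) →
  (∀ (v r : X) (m : ℂ), ‖m - z₀‖ < ρ → (v, m • v + r) ∈ H →
      ‖P v - v‖ ≤ ρ * K * ‖r‖ / (ρ - ‖m - z₀‖)) →
  ∀ v, P v = 0 → (1 + l) * ‖T v‖ ≤ ‖v‖

/-- orthonormal eigenvectors in the range of the projection -/
def S_ONB : Prop := ∀ (X : Type) [NormedAddCommGroup X] [InnerProductSpace ℂ X] [CompleteSpace X]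
  (H : Submodule ℂ (X × X)) (T P : X →L[ℂ] X), (∀ f, ((0 : X), f) ∈ H → f = 0) →
  IsR H (-1) T → (∀ v w, ⟪T v, w⟫_ℂ = ⟪v, T w⟫_ℂ) → (∀ v, 0 ≤ (⟪T v, v⟫_ℂ).re) →
  (∀ v, ‖T v‖ ≤ ‖v‖) → (∀ v, P (P v) = P v) →
  FiniteDimensional ℂ (LinearMap.range (P : X →ₗ[ℂ] X)) → (∀ v, T (P v) = P (T v)) →
  ∃ (ψ : Fin (Module.finrank ℂ (LinearMap.range (P : X →ₗ[ℂ] X))) → X)
    (E : Fin (Module.finrank ℂ (LinearMap.range (P : X →ₗ[ℂ] X))) → ℝ),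
    Orthonormal ℂ ψ ∧ (∀ j, P (ψ j) = ψ j) ∧ (∀ j, 0 ≤ E j) ∧ ∀ j, (ψ j, (E j : ℂ) • ψ j) ∈ H

/-- from an invariant subspace to the generalised eigenspaces -/
def S_CNT : Prop := ∀ (X : Type) [AddCommGroup X] [Module ℂ X] (R : Submodule ℂ (X × X))
  (G : ℂ → Submodule ℂ X) (D : Set ℂ), (∀ f, ((0 : X), f) ∈ R → f = 0) →
  (∀ E u, u ∈ G E ↔ ∃ (n : ℕ) (c : ℕ → X), c 0 = u ∧ c n = 0 ∧
    ∀ i < n, (c i, c (i + 1) + E • c i) ∈ R) →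
  (∀ E ∈ D, Module.Finite ℂ (G E)) →
  ∀ (n : ℕ) (u : Fin n → X) (A : Matrix (Fin n) (Fin n) ℂ), LinearIndependent ℂ u →
    (∀ j, (u j, ∑ l, A l j • u l) ∈ R) → (∀ z ∈ A.charpoly.roots, z ∈ D) →
    ∃ S : Finset ℂ, (∀ E ∈ S, E ∈ D) ∧ n ≤ ∑ E ∈ S, Module.finrank ℂ (G E)

/-! ## The Laplace operator -/

/-- weak gradients on the Fourier side -/
def S_FT : Prop := ∀ (d : ℕ) (u : L2d d) (g : Fin d → L2d d), IsGrad u g ↔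
  ∀ k, (fun ξ : Ed d => (𝓕 (g k) : L2d d) ξ) =ᵐ[volume]
    fun ξ => (2 * Real.pi * Complex.I * (ξ k : ℂ)) * (𝓕 u : L2d d) ξ

/-- `H¹` and the Dirichlet form by weak gradients -/
def S_GRAD : Prop := ∀ (d : ℕ), (∀ u : L2d d, InH1 u ↔ ∃ g, IsGrad u g) ∧
  ∀ (u φ : L2d d) (g g' : Fin d → L2d d), IsGrad u g → IsGrad φ g' →
    dirichlet u φ = ∑ k, ⟪g' k, g k⟫_ℂ

/-- integration by parts -/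
def S_IBP : Prop := ∀ (d : ℕ) (u w : L2d d) (g g' : Fin d → L2d d), IsGrad u g → IsGrad w g' →
  ∀ k, ⟪g k, w⟫_ℂ = -⟪u, g' k⟫_ℂ

/-- Leibniz rule -/
def S_LEI : Prop := ∀ (d : ℕ) (χ : Ed d → ℝ) (u : L2d d) (g : Fin d → L2d d), Mul χ →
  IsGrad u g → IsGrad (mulR χ u) (fun k => mulR χ (g k) + mulR (pd k χ) u)

/-- approximation by Schwartz functions -/
def S_DEN : Prop := ∀ (d : ℕ) (u : L2d d) (g : Fin d → L2d d) (ε : ℝ), 0 < ε → IsGrad u g →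
  ∃ φ : 𝓢(Ed d, ℂ), ∫ x, ‖u x - φ x‖ ^ 2 < ε ∧
    ∀ k, ∫ x, ‖g k x - fderiv ℝ (fun y => φ y) x (ev k)‖ ^ 2 < ε

/-- the two definitions of the operator agree -/
def S_HU : Prop := ∀ (d : ℕ) (h : ℝ) (V : Ed d → ℂ), FB V → ∀ u f : L2d d,
  IsHu h V u f ↔ Hu h V u f

/-- integrable potentials are form bounded -/
def S_FBL : Prop := ∀ (d : ℕ) (V : Ed d → ℂ), 1 ≤ d → Measurable V →
  MemLp V (ENNReal.ofReal (d + 1)) volume → FB V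

/-- the operator is a linear relation, single valued -/
def S_SUB : Prop := ∀ (d : ℕ) (h : ℝ) (V : Ed d → ℂ), FB V →
  ∃ H : Submodule ℂ (L2d d × L2d d), (∀ u f, (u, f) ∈ H ↔ Hu h V u f) ∧
    ∀ f, ((0 : L2d d), f) ∈ H → f = 0

/-- symmetry for the complex conjugation, and symmetry for real potentials -/
def S_SYM : Prop := ∀ (d : ℕ) (h : ℝ) (V : Ed d → ℂ), FB V → ∀ u f v g : L2d d,
  Hu h V u f → Hu h V v g → ⟪star v, f⟫_ℂ = ⟪star g, u⟫_ℂ ∧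
    ((∀ x, (V x).im = 0) → ⟪v, f⟫_ℂ = ⟪g, u⟫_ℂ)

/-- the resolvent at `-1` -/
def S_RES : Prop := ∀ (d : ℕ) (h : ℝ) (V : Ed d → ℂ) (B : L2d d →L[ℂ] L2d d), 0 < h → FB V →
  (∀ x, 0 ≤ (V x).re) → (∀ u, 0 ≤ (⟪u, B u⟫_ℂ).re) →
  ∃ T : L2d d →L[ℂ] L2d d, (∀ f, Hu h V (T f) (f - T f - B (T f))) ∧
    (∀ u f, Hu h V u (f - u - B u) → u = T f) ∧ ∀ f, ‖T f‖ ≤ ‖f‖

/-- weighted energy identity -/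
def S_E1 : Prop := ∀ (d : ℕ) (h : ℝ) (V : Ed d → ℂ) (u f : L2d d) (g : Fin d → L2d d)
  (χ : Ed d → ℝ), FB V → Hu h V u f → IsGrad u g → Mul χ →
  h ^ 2 * (∑ k, ‖mulR χ (g k) + mulR (pd k χ) u‖ ^ 2) +
      ∫ x, (V x).re * (χ x ^ 2 * ‖u x‖ ^ 2) =
    h ^ 2 * (∫ x, (∑ k, pd k χ x ^ 2) * ‖u x‖ ^ 2) + (∫ x, (χ x ^ 2 : ℂ) *
      (f x * (starRingEnd ℂ) (u x))).re

/-- energy identities -/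
def S_E0 : Prop := ∀ (d : ℕ) (h : ℝ) (V : Ed d → ℂ) (u f : L2d d) (g : Fin d → L2d d),
  FB V → Hu h V u f → IsGrad u g →
  h ^ 2 * (∑ k, ‖g k‖ ^ 2) + ∫ x, (V x).re * ‖u x‖ ^ 2 = (⟪u, f⟫_ℂ).re ∧
  ∫ x, (V x).im * ‖u x‖ ^ 2 = (⟪u, f⟫_ℂ).im

/-- the commutator with a multiplier -/
def comm {d : ℕ} (h : ℝ) (χ : Ed d → ℝ) (u : L2d d) (g : Fin d → L2d d) : L2d d :=
  ((h ^ 2 : ℝ) : ℂ) • ((2 : ℂ) • (∑ k, mulR (pd k χ) (g k)) + mulR (lap χ) u)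

/-- localisation -/
def S_E2 : Prop := ∀ (d : ℕ) (h : ℝ) (V : Ed d → ℂ) (u f : L2d d) (g : Fin d → L2d d)
  (χ : Ed d → ℝ), FB V → Hu h V u f → IsGrad u g → Mul χ →
  Hu h V (mulR χ u) (mulR χ f - comm h χ u g)

/-- the commutator is small if `u` is small on the support of the derivatives -/
def S_COM : Prop := ∀ (d : ℕ) (χ : Ed d → ℝ), Mul χ → ∃ C : ℝ, 0 ≤ C ∧
  ∀ (b : Ed d → ℝ) (h : ℝ) (u : L2d d) (g : Fin d → L2d d), Measurable b →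
  (∀ x, ((∃ k, pd k χ x ≠ 0) ∨ lap χ x ≠ 0) → b x = 1) → 0 < h → h ≤ 1 →
  ‖comm h χ u g‖ ^ 2 ≤
    C * (h ^ 2 * (∫ x in {x | b x = 1}, ∑ k, ‖g k x‖ ^ 2) + ∫ x in {x | b x = 1}, ‖u x‖ ^ 2)

/-- the unit cube -/
def Gd (d : ℕ) : Set (Ed d) := {x | ∀ k, 0 ≤ x k ∧ x k ≤ 1}

/-- the cube in the middle -/
def Q0 (d : ℕ) : Set (Ed d) := {x | ∀ k, 1 / 4 ≤ x k ∧ x k ≤ 3 / 4}

/-- the properties of the finite dimensional projection -/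
structure Proj {d : ℕ} (C : ℝ) (m : ℕ) (Q : L2d d →L[ℂ] L2d d) : Prop where
  sa : ∀ u v, ⟪Q u, v⟫_ℂ = ⟪u, Q v⟫_ℂ
  idem : ∀ u, Q (Q u) = Q u
  conj : ∀ u, Q (star u) = star (Q u)
  fin : FiniteDimensional ℂ (LinearMap.range (Q : L2d d →ₗ[ℂ] L2d d))
  rank : Module.finrank ℂ (LinearMap.range (Q : L2d d →ₗ[ℂ] L2d d)) ≤ m ^ d
  poi : ∀ (u : L2d d) (g : Fin d → L2d d), IsGrad u g →
      ∫ x in Gd d, ‖u x‖ ^ 2 ≤ ‖Q u‖ ^ 2 + C / m ^ 2 * ∑ k, ‖g k‖ ^ 2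

/-- Poincare inequality with a finite dimensional projection -/
def S_POI : Prop := ∀ d : ℕ, 1 ≤ d → ∃ C : ℝ, 0 < C ∧ ∀ m : ℕ, 1 ≤ m →
  ∃ Q : L2d d →L[ℂ] L2d d, Proj C m Q

/-- many disjoint bumps -/
def S_BUMP : Prop := ∀ d : ℕ, 1 ≤ d → ∃ c : ℝ, 0 < c ∧ ∀ M : ℝ, 0 < M → ∃ h₀ : ℝ, 0 < h₀ ∧
  ∀ h : ℝ, 0 < h → h < h₀ → ∃ (n : ℕ) (θ : Fin n → L2d d) (g : Fin n → Fin d → L2d d),
    c * M ^ ((d : ℝ) / 2) * h ^ (-(d : ℝ)) ≤ n ∧ LinearIndependent ℂ θ ∧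
    (∀ i, IsGrad (θ i) (g i)) ∧
    (∀ i, ∀ᵐ x, x ∉ Q0 d → (θ i) x = 0) ∧
    ∀ s : Fin n → ℂ, h ^ 2 * (∑ k, ‖∑ i, s i • g i k‖ ^ 2) ≤ M * ‖∑ i, s i • θ i‖ ^ 2

/-! ## The walls -/

/-- wall potentials -/
structure Wall {d : ℕ} (W : Ed d → ℝ) : Prop where
  fb : FB fun x => (W x : ℂ)
  nonneg : ∀ x, 0 ≤ W x
  zero : ∀ x ∈ Q0 d, W x = 0

/-- the cutoffs for the energy level `M` -/
structure Lev {d : ℕ} (W : Ed d → ℝ) (M : ℝ) (χ b φ : Ed d → ℝ) (a : ℝ) : Prop where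
  χm : Mul χ
  χc : HasCompactSupport χ
  χ0 : ∀ x, 0 ≤ χ x
  χ1 : ∀ x, χ x ≤ 1
  χG : ∀ x, χ x ≠ 0 → x ∈ Gd d
  χQ : ∀ x ∈ Q0 d, χ x = 1
  bm : Mul b
  bc : HasCompactSupport b
  b0 : ∀ x, 0 ≤ b x
  b1 : ∀ x, b x ≤ 1
  bW : ∀ x, b x ≠ 0 → M ≤ W x
  bχ : ∀ x, ((∃ k, pd k χ x ≠ 0) ∨ lap χ x ≠ 0) → b x = 1
  φm : Mul φ
  φc : HasCompactSupport φ
  φ0 : ∀ x, 0 ≤ φ x
  φ1 : ∀ x, φ x ≤ 1
  φG : ∀ x ∈ Gd d, φ x = 1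
  φW : ∀ᵐ x, φ x ≠ 0 → χ x ≠ 1 → M ≤ W x
  apos : 0 < a
  ab : ∀ x, a ^ 2 * (∑ k, pd k b x ^ 2) ≤ M / 4

open Classical in
/-- the potential `W + i 1_G` -/
def VV {d : ℕ} (W : Ed d → ℝ) (x : Ed d) : ℂ := (W x : ℂ) + if x ∈ Gd d then Complex.I else 0

open Classical in
/-- the inner potential -/
def Vin {d : ℕ} (W : Ed d → ℝ) (M : ℝ) (χ : Ed d → ℝ) (x : Ed d) : ℂ :=
  if χ x ≠ 0 then (W x : ℂ) else (M : ℂ)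

open Classical in
/-- the outer potential -/
def Vout {d : ℕ} (W : Ed d → ℝ) (M : ℝ) (χ : Ed d → ℝ) (x : Ed d) : ℂ :=
  if χ x = 1 then (M : ℂ) else VV W x

/-- existence of a wall with cutoffs for all levels -/
def S_LEV : Prop := ∀ d : ℕ, 1 ≤ d → ∃ W : Ed d → ℝ, Measurable W ∧ (∀ x, 0 ≤ W x) ∧
  (∀ x ∈ Q0 d, W x = 0) ∧ (∃ R : ℝ, ∀ x, R < ‖x‖ → W x = 0) ∧
  (∀ p : ℝ, 1 ≤ p → MemLp (fun x => (W x : ℂ)) (ENNReal.ofReal p) volume) ∧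
  ∀ M : ℝ, 0 < M → ∃ (χ b φ : Ed d → ℝ) (a : ℝ), Lev W M χ b φ a

/-- the three potentials are form bounded and agree where they should -/
def S_POT : Prop := ∀ (d : ℕ) (W : Ed d → ℝ) (M : ℝ) (χ b φ : Ed d → ℝ) (a : ℝ), Wall W →
  0 < M → Lev W M χ b φ a → FB (VV W) ∧ FB (Vin W M χ) ∧ FB (Vout W M χ) ∧
  (∀ (h : ℝ) (u f : L2d d), Hu h (VV W) (mulR χ u) f ↔
    Hu h (Vin W M χ) (mulR χ u) (f - Complex.I • mulR χ u)) ∧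
  (∀ (h : ℝ) (u f : L2d d), Hu h (VV W) (mulR (fun x => 1 - χ x) u) f ↔
    Hu h (Vout W M χ) (mulR (fun x => 1 - χ x) u) f) ∧
  (∀ u : L2d d, mulR χ u + mulR (fun x => 1 - χ x) u = u)

/-- exponential decay in the wall -/
def S_AGM : Prop := ∀ (d : ℕ) (h M a : ℝ) (V : Ed d → ℂ) (b : Ed d → ℝ) (u f : L2d d)
  (g : Fin d → L2d d) (z : ℂ), 0 < h → 0 < M → 0 ≤ a → FB V → (∀ x, 0 ≤ (V x).re) → Mul b →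
  HasCompactSupport b → (∀ x, 0 ≤ b x) → (∀ x, b x ≤ 1) → (∀ x, b x ≠ 0 → M ≤ (V x).re) →
  (∀ x, a ^ 2 * (∑ k, pd k b x ^ 2) ≤ M / 4) → z.re ≤ M / 2 → Hu h V u (z • u + f) →
  IsGrad u g →
  h ^ 2 * (∫ x in {x | b x = 1}, ∑ k, ‖g k x‖ ^ 2) + M / 4 * (∫ x in {x | b x = 1}, ‖u x‖ ^ 2) ≤
    Real.exp (-(2 * a / h)) * (M / 2) * ‖u‖ ^ 2 + ‖u‖ * ‖f‖

/-- bound for the outer operator -/
def S_OUT : Prop := ∀ (d : ℕ) (h M C : ℝ) (V : Ed d → ℂ) (φ : Ed d → ℝ) (u f : L2d d) (z : ℂ),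
  0 < h → 2 ≤ M → FB V → (∀ x, 0 ≤ (V x).re) → (∀ x, (V x).im ≤ φ x ^ 2) → Mul φ →
  (∀ x, φ x ^ 2 ≤ 1) → HasCompactSupport φ → (∀ᵐ x, φ x ≠ 0 → M ≤ (V x).re) → (∀ x, ∑ k, pd k φ x ^ 2 ≤ C) →
  8 * (h ^ 2 * C) ≤ M → z.re ≤ M / 2 → 1 / 2 ≤ z.im → Hu h V u (z • u + f) → ‖u‖ ≤ 8 * ‖f‖

/-- bounds with the finite dimensional projection added -/
def S_KAP : Prop := ∀ (d : ℕ) (h M C : ℝ) (m : ℕ) (Q : L2d d →L[ℂ] L2d d) (V : Ed d → ℂ)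
  (u f : L2d d) (z : ℂ), 0 < h → 8 ≤ M → 0 < C → 1 ≤ m → FB V → (∀ x, 0 ≤ (V x).re) →
  Proj C m Q → 4 * C * M ≤ m ^ 2 * h ^ 2 → z.re ≤ M / 2 →
  Hu h V u (z • u - ((4 * M : ℝ) : ℂ) • Q u + f) →
  (((∀ x, (V x).im ≤ 1) → (∀ x, x ∉ Gd d → (V x).im ≤ 0) → 1 / 2 ≤ z.im → ‖u‖ ≤ 8 * ‖f‖) ∧
   ((∀ x, x ∉ Gd d → M ≤ (V x).re) → ‖u‖ ≤ ‖f‖))

/-- the commutators of `χ` and `1 - χ` -/
def S_CM1 : Prop := ∀ (d : ℕ) (h : ℝ) (χ : Ed d → ℝ) (u : L2d d) (g : Fin d → L2d d), Mul χ →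
  Mul (fun x => 1 - χ x) ∧ comm h (fun x => 1 - χ x) u g = -comm h χ u g ∧
  ((∀ x, 0 ≤ χ x) → (∀ x, χ x ≤ 1) → ∀ v : L2d d, ‖mulR χ v‖ ≤ ‖v‖ ∧
    ‖mulR (fun x => 1 - χ x) v‖ ≤ ‖v‖)

/-! ## Composed parts -/

/-- a priori bound for the full operator -/
def S_APR : Prop := ∀ (d : ℕ) (W : Ed d → ℝ) (M : ℝ) (χ b φ : Ed d → ℝ) (a : ℝ), Wall W →
  8 ≤ M → Lev W M χ b φ a → ∃ C h₀ : ℝ, 1 ≤ C ∧ 0 < h₀ ∧ ∀ h : ℝ, 0 < h → h < h₀ →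
  ∀ η : ℝ, 0 < η → η ≤ 1 → C * Real.exp (-(a / h)) ≤ η → ∀ z : ℂ, 1 / 2 ≤ z.im → z.re ≤ M / 2 →
  (∀ v f : L2d d, Hu h (Vin W M χ) v ((z - Complex.I) • v + f) → η * ‖v‖ ≤ ‖f‖) →
  ∀ u f : L2d d, Hu h (VV W) u (z • u + f) → ‖u‖ ≤ C / η ^ 2 * ‖f‖

/-- cutting off the eigenfunctions of the inner operator -/
def S_QUA : Prop := ∀ (d : ℕ) (W : Ed d → ℝ) (M : ℝ) (χ b φ : Ed d → ℝ) (a : ℝ), Wall W →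
  8 ≤ M → Lev W M χ b φ a → ∃ C h₀ : ℝ, 1 ≤ C ∧ 0 < h₀ ∧ ∀ h : ℝ, 0 < h → h < h₀ →
  ∀ (ψ : L2d d) (E : ℝ), 0 ≤ E → E ≤ M / 4 → Hu h (Vin W M χ) ψ ((E : ℂ) • ψ) →
  ∃ r : L2d d, Hu h (VV W) (mulR χ ψ) (((E : ℂ) + Complex.I) • mulR χ ψ + r) ∧
    ‖r‖ ≤ C * Real.exp (-(a / h)) * ‖ψ‖ ∧ ‖mulR χ ψ - ψ‖ ≤ C * Real.exp (-(a / h)) * ‖ψ‖

/-- the inner operator: a gap, and many eigenvalues below it -/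
def S_IN : Prop := ∀ d : ℕ, 1 ≤ d → ∃ c : ℝ, 0 < c ∧ ∀ (W : Ed d → ℝ) (M : ℝ)
  (χ b φ : Ed d → ℝ) (a : ℝ), Wall W → 24 ≤ M → Lev W M χ b φ a → ∃ C h₀ : ℝ, 1 ≤ C ∧ 0 < h₀ ∧
  h₀ ≤ 1 ∧ ∀ h : ℝ, 0 < h → h < h₀ → ∃ (l η : ℝ) (n : ℕ) (ψ : Fin n → L2d d) (E : Fin n → ℝ),
    M / 12 ≤ l ∧ l ≤ M / 6 ∧ 0 < η ∧ η ≤ 1 ∧ h ^ (2 * d) ≤ C * η ∧
    c * M ^ ((d : ℝ) / 2) * h ^ (-(d : ℝ)) ≤ n ∧ (n : ℝ) * h ^ d ≤ C ∧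
    (∀ v f : L2d d, Hu h (Vin W M χ) v ((l : ℂ) • v + f) → η * ‖v‖ ≤ ‖f‖) ∧
    Orthonormal ℂ ψ ∧ ∀ j, Hu h (Vin W M χ) (ψ j) ((E j : ℂ) • ψ j) ∧ 0 ≤ E j ∧ E j ≤ l - η

/-- the inner operator has a gap -/
def S_IN1 : Prop := ∀ (d : ℕ) (W : Ed d → ℝ) (M : ℝ) (χ b φ : Ed d → ℝ) (a h C : ℝ) (m : ℕ)
  (Q : L2d d →L[ℂ] L2d d), 1 ≤ d → Wall W → 24 ≤ M → Lev W M χ b φ a → 0 < h → 0 < C → 1 ≤ m →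
  Proj C m Q → 4 * C * M ≤ m ^ 2 * h ^ 2 → ∃ l : ℝ, M / 12 ≤ l ∧ l ≤ M / 6 ∧
  ∀ v f : L2d d, Hu h (Vin W M χ) v ((l : ℂ) • v + f) →
    (M / 12) / (8 * ((m : ℝ) ^ d + 1) * ((m : ℝ) ^ d + 2)) * ‖v‖ ≤ ‖f‖

/-- the eigenvalues of the inner operator below the gap -/
def S_IN2 : Prop := ∀ (d : ℕ) (W : Ed d → ℝ) (M : ℝ) (χ b φ : Ed d → ℝ) (a h C l η : ℝ) (m : ℕ)
  (Q : L2d d →L[ℂ] L2d d), 1 ≤ d → Wall W → 24 ≤ M → Lev W M χ b φ a → 0 < h → 0 < C → 1 ≤ m →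
  Proj C m Q → 4 * C * M ≤ m ^ 2 * h ^ 2 → M / 12 ≤ l → l ≤ M / 6 → 0 < η → η ≤ 1 →
  (∀ v f : L2d d, Hu h (Vin W M χ) v ((l : ℂ) • v + f) → η * ‖v‖ ≤ ‖f‖) →
  ∃ (n : ℕ) (ψ : Fin n → L2d d) (E : Fin n → ℝ), n ≤ m ^ d ∧ Orthonormal ℂ ψ ∧
    (∀ j, Hu h (Vin W M χ) (ψ j) ((E j : ℂ) • ψ j) ∧ 0 ≤ E j ∧ E j ≤ l - η) ∧
    ∀ (N : ℕ) (θ : Fin N → L2d d) (g : Fin N → Fin d → L2d d), LinearIndependent ℂ θ →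
      (∀ i, IsGrad (θ i) (g i)) → (∀ i, ∀ᵐ x, x ∉ Q0 d → (θ i) x = 0) →
      (∀ s : Fin N → ℂ,
        h ^ 2 * (∑ k, ‖∑ i, s i • g i k‖ ^ 2) ≤ M / 24 * ‖∑ i, s i • θ i‖ ^ 2) → N ≤ n

/-- one level -/
def S_LT : Prop := ∀ d : ℕ, 1 ≤ d → ∃ c : ℝ, 0 < c ∧ ∀ (W : Ed d → ℝ) (M : ℝ)
  (χ b φ : Ed d → ℝ) (a : ℝ), Wall W → 24 ≤ M → Lev W M χ b φ a → ∃ h₀ : ℝ, 0 < h₀ ∧
  ∀ h : ℝ, 0 < h → h < h₀ → ∃ (n : ℕ) (u : Fin n → L2d d) (A : Matrix (Fin n) (Fin n) ℂ),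
    c * M ^ ((d : ℝ) / 2) * h ^ (-(d : ℝ)) ≤ n ∧ LinearIndependent ℂ u ∧
    (∀ j, Hu h (VV W) (u j) (∑ l, A l j • u l)) ∧
    ∀ z ∈ A.charpoly.roots, 1 / 2 ≤ z.im ∧ z.im ≤ 1 ∧ 0 ≤ z.re ∧ z.re ≤ M

/-- the sum over the levels -/
def S_SUM : Prop := ∀ (d : ℕ) (γ σ c M₀ : ℝ), 1 ≤ d → 0 < γ → 0 ≤ σ → σ ≤ d / 2 → 0 < c →
  1 ≤ M₀ → ∃ c' : ℝ, 0 < c' ∧ ∀ (K : ℕ) (h : ℝ) (mult : ℂ → ℕ), 0 < h →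
  (∀ k ∈ Finset.Icc 1 K, ∃ S : Finset ℂ,
    (∀ E ∈ S, 1 / 2 ≤ E.im ∧ E.im ≤ 1 ∧ 0 ≤ E.re ∧ E.re ≤ 4 ^ k * M₀) ∧
    c * (4 ^ k * M₀) ^ ((d : ℝ) / 2) * h ^ (-(d : ℝ)) ≤ ∑ E ∈ S, (mult E : ℝ)) →
  ENNReal.ofReal (c' * K * h ^ (-(d : ℝ))) ≤ ∑' E : ℂ, (mult E : ℝ≥0∞) *
    ENNReal.ofReal (‖E‖ ^ (-σ) * Metric.infDist E {z : ℂ | 0 ≤ z.re ∧ z.im = 0} ^ (γ + σ))

end

end Pool.Agent.W761.CP
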