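import Pool.Agent.W761.CP.LT2
import Pool.Agent.W856.CP.Ft
import Pool.Agent.W63.CP.Grad
import Pool.Agent.W503.CP.Lei
import Pool.Agent.W308.CP.Den
import Pool.Agent.W381.CP.HuEq
import Pool.Agent.W168.CP.FBL
import Pool.Agent.W357.CP.Sub
import Pool.Agent.W804.CP.Res
import Pool.Agent.W597.CP.E1
import Pool.Agent.W376.CP.E2
import Pool.Agent.W918.CP.Com
import Pool.Agent.W999.CP.Pot
import Pool.Agent.W975.CP.AGM
import Pool.Agent.W53.CP.Out
import Pool.Agent.W657.CP.Kap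
import Pool.Agent.W797.CP.Poi
import Pool.Agent.W446.CP.Bump
import Pool.Agent.W933.CP.Lev
import Pool.Agent.W903.CP.RZ2
import Pool.Agent.W196.CP.Mat
import Pool.Agent.W99.CP.Ext
import Pool.Agent.W403.CP.Gap
import Pool.Agent.W692.CP.Comp
import Pool.Agent.W701.CP.Onb
import Pool.Agent.W236.CP.Cnt
import Pool.Agent.W45.CP.Sum
import Pool.Agent.W155.CP.Apr
import Pool.Agent.W513.CP.Qua
import Pool.Agent.W768.CP.IN1
import Pool.Agent.W479.CP.Inn
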