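import Pool.Agent.W761.CP.LT0

/-!
# One level
-/

set_option autoImplicit false

open MeasureTheory
open scoped ENNReal FourierTransform SchwartzMap InnerProductSpace

namespace Pool.Agent.W761.CP
open Pool.Agent.Helper209.CX (Ed L2d InH1 dirichlet IsHu)

variable {d : ℕ}

theorem hu_grad {h : ℝ} {V : Ed d → ℂ} {u f : L2d d} (hu : Hu h V u f) :
    ∃ g, IsGrad u g := ⟨hu.choose, hu.choose_spec.1⟩

/-- elementary bounds from the energy identities -/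
theorem e0_re (HE0 : S_E0) {h : ℝ} {V : Ed d → ℂ} {u f : L2d d} (hV : FB V)
    (hre : ∀ x, 0 ≤ (V x).re) (hu : Hu h V u f) : 0 ≤ (⟪u, f⟫_ℂ).re := by
  obtain ⟨g, hg⟩ := hu_grad hu
  have h1 := (HE0 d h V u f g hV hu hg).1
  rw [← h1]
  have h2 : 0 ≤ ∫ x, (V x).re * ‖u x‖ ^ 2 :=
    integral_nonneg fun x => mul_nonneg (hre x) (by positivity)
  positivity

theorem e0_im (HE0 : S_E0) {h : ℝ} {V : Ed d → ℂ} {u f : L2d d} (hV : FB V)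
    (hi0 : ∀ x, 0 ≤ (V x).im) (hi1 : ∀ x, (V x).im ≤ 1) (hu : Hu h V u f) :
    0 ≤ (⟪u, f⟫_ℂ).im ∧ (⟪u, f⟫_ℂ).im ≤ ‖u‖ ^ 2 := by
  obtain ⟨g, hg⟩ := hu_grad hu
  have h1 := (HE0 d h V u f g hV hu hg).2
  rw [← h1]
  have hint : Integrable (fun x => ‖u x‖ ^ 2) volume :=
    (memLp_two_iff_integrable_sq_norm (Lp.memLp u).1).1 (Lp.memLp u)
  refine ⟨integral_nonneg fun x => mul_nonneg (hi0 x) (by positivity), ?_⟩
  have h3 : ‖u‖ ^ 2 = ∫ x, ‖u x‖ ^ 2 := by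
    have h4 : (⟪u, u⟫_ℂ) = ((‖u‖ ^ 2 : ℝ) : ℂ) := by
      rw [inner_self_eq_norm_sq_to_K]; norm_cast
    have h5 : (⟪u, u⟫_ℂ) = ((∫ x, ‖u x‖ ^ 2 : ℝ) : ℂ) := by
      rw [L2.inner_def]
      refine Eq.trans (integral_congr_ae (g := fun x => ((‖u x‖ ^ 2 : ℝ) : ℂ))
        (Filter.Eventually.of_forall fun x => ?_)) integral_complex_ofReal
      show ⟪u x, u x⟫_ℂ = ((‖u x‖ ^ 2 : ℝ) : ℂ)
      rw [inner_self_eq_norm_sq_to_K]; norm_cast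
    rw [h4] at h5
    exact_mod_cast h5
  rw [h3]
  have him : ∀ x, |(V x).im| ≤ 1 := fun x => abs_le.2 ⟨by linarith [hi0 x], hi1 x⟩
  refine integral_mono (Integrable.mono' hint ?_ ?_) hint fun x =>
    mul_le_of_le_one_left (by positivity) (hi1 x)
  · exact (Complex.measurable_im.comp hV.1).aestronglyMeasurable.mul hint.1
  · refine Filter.Eventually.of_forall fun x => ?_
    rw [Real.norm_eq_abs, abs_mul, abs_of_nonneg (by positivity : (0 : ℝ) ≤ ‖u x‖ ^ 2)]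
    exact mul_le_of_le_one_left (by positivity) (him x)

theorem VV_re (W : Ed d → ℝ) (x : Ed d) : (VV W x).re = W x := by
  unfold VV; split_ifs <;> simp

theorem VV_im (W : Ed d → ℝ) (x : Ed d) : 0 ≤ (VV W x).im ∧ (VV W x).im ≤ 1 := by
  unfold VV; split_ifs <;> simp

theorem VV_im0 (W : Ed d → ℝ) (x : Ed d) (hx : x ∉ Gd d) : (VV W x).im ≤ 0 := by
  unfold VV; rw [if_neg hx]; simp

theorem Vin_im (W : Ed d → ℝ) (M : ℝ) (χ : Ed d → ℝ) (x : Ed d) : (Vin W M χ x).im = 0 := by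
  unfold Vin; split_ifs <;> simp

theorem Vin_re (W : Ed d → ℝ) (M : ℝ) (χ : Ed d → ℝ) (hM : 0 ≤ M) (hW : ∀ x, 0 ≤ W x)
    (x : Ed d) : 0 ≤ (Vin W M χ x).re := by
  unfold Vin; split_ifs <;> simp [hW x, hM]

/-- a priori bound far up: `Im z ≥ 3/2`, with a symmetric positive operator added -/
theorem ap_high (HE0 : S_E0) {h : ℝ} {V : Ed d → ℂ} (hV : FB V)
    (hi0 : ∀ x, 0 ≤ (V x).im) (hi1 : ∀ x, (V x).im ≤ 1) (z : ℂ) (hz : 3 / 2 ≤ z.im)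
    (u f b : L2d d) (hb : (⟪u, b⟫_ℂ).im = 0) (hu : Hu h V u (z • u - b + f)) :
    ‖u‖ ≤ 2 * ‖f‖ := by
  have h1 := (e0_im HE0 hV hi0 hi1 hu).2
  have h2 : (⟪u, z • u - b + f⟫_ℂ).im = z.im * ‖u‖ ^ 2 + (⟪u, f⟫_ℂ).im := by
    rw [inner_add_right, inner_sub_right, inner_smul_right, inner_self_eq_norm_sq_to_K]
    rw [Complex.add_im, Complex.sub_im, hb]
    have : ((‖u‖ : ℂ)) ^ 2 = ((‖u‖ ^ 2 : ℝ) : ℂ) := by norm_cast
    simp only [Complex.coe_algebraMap]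
    rw [this, Complex.mul_im, Complex.ofReal_re, Complex.ofReal_im]
    ring
  rw [h2] at h1
  have h3 : |(⟪u, f⟫_ℂ).im| ≤ ‖u‖ * ‖f‖ := (Complex.abs_im_le_norm _).trans (norm_inner_le_norm _ _)
  have h4 := (abs_le.1 h3).1
  have h5 : 1 / 2 * ‖u‖ ^ 2 ≤ ‖u‖ * ‖f‖ := by nlinarith [sq_nonneg ‖u‖]
  rcases (norm_nonneg u).eq_or_lt with h6 | h6
  · rw [← h6]; positivity
  · nlinarith

/-- the inner gap for `z - i` on the circle -/
theorem inner_gap (HE0 : S_E0) (HSYM : S_SYM) {h M : ℝ} {W χ : Ed d → ℝ}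
    (hV : FB (Vin W M χ)) (hM : 0 ≤ M) (hW : ∀ x, 0 ≤ W x) (l η s y : ℝ)
    (hs : s = (l + 1) / 2) (hs0 : 0 < s) (hy : y = s ^ 2) (hη : 0 < η) (hη1 : η ≤ 1)
    (hgap : ∀ v f : L2d d, Hu h (Vin W M χ) v ((l : ℂ) • v + f) → η * ‖v‖ ≤ ‖f‖)
    (z : ℂ) (hz1 : 1 / 2 ≤ z.im) (hz2 : z.im ≤ 3 / 2)
    (hc : (z.re - (l - 1) / 2) ^ 2 + (z.im - (1 + y)) ^ 2 = s ^ 2 + y ^ 2)
    (v f : L2d d) (hv : Hu h (Vin W M χ) v ((z - Complex.I) • v + f)) :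
    η / (8 * y + 4) * ‖v‖ ≤ ‖f‖ := by
  set w : ℂ := z - Complex.I with hw
  have hwre : w.re = z.re := by rw [hw]; simp
  have hwim : w.im = z.im - 1 := by rw [hw]; simp
  have hy0 : 0 ≤ y := by rw [hy]; positivity
  have hden : 0 < 8 * y + 4 := by linarith
  have hnn : 0 ≤ ‖v‖ := norm_nonneg v
  -- imaginary part
  have hinner : ⟪v, w • v + f⟫_ℂ = w * ((‖v‖ ^ 2 : ℝ) : ℂ) + ⟪v, f⟫_ℂ := by
    rw [inner_add_right, inner_smul_right, inner_self_eq_norm_sq_to_K]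
    have : ((‖v‖ : ℂ)) ^ 2 = ((‖v‖ ^ 2 : ℝ) : ℂ) := by norm_cast
    simp only [Complex.coe_algebraMap]
    rw [this]
  have hreal : (⟪v, w • v + f⟫_ℂ).im = 0 := by
    have h1 := (HSYM d h _ hV v _ v _ hv hv).2 (Vin_im W M χ)
    have h2 : (starRingEnd ℂ) ⟪v, w • v + f⟫_ℂ = ⟪w • v + f, v⟫_ℂ := inner_conj_symm _ _
    rw [← h1] at h2
    exact Complex.conj_eq_iff_im.1 h2
  have hpos := e0_re HE0 hV (Vin_re W M χ hM hW) hv
  have hfim : |(⟪v, f⟫_ℂ).im| ≤ ‖v‖ * ‖f‖ :=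
    (Complex.abs_im_le_norm _).trans (norm_inner_le_norm _ _)
  have hfre : |(⟪v, f⟫_ℂ).re| ≤ ‖v‖ * ‖f‖ :=
    (Complex.abs_re_le_norm _).trans (norm_inner_le_norm _ _)
  rw [hinner, Complex.add_im, Complex.mul_im, Complex.ofReal_re, Complex.ofReal_im, mul_zero,
    zero_add] at hreal
  rw [hinner, Complex.add_re, Complex.mul_re, Complex.ofReal_re, Complex.ofReal_im, mul_zero,
    sub_zero] at hpos
  rcases hnn.eq_or_lt with h0 | h0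
  · rw [← h0, mul_zero]; exact norm_nonneg f
  have hIm : |w.im| * ‖v‖ ≤ ‖f‖ := by
    have h1 : |w.im| * ‖v‖ ^ 2 ≤ ‖v‖ * ‖f‖ := by
      have h2 : w.im * ‖v‖ ^ 2 = -(⟪v, f⟫_ℂ).im := by linarith
      calc |w.im| * ‖v‖ ^ 2 = |w.im * ‖v‖ ^ 2| := by
            rw [abs_mul, abs_of_nonneg (by positivity : (0 : ℝ) ≤ ‖v‖ ^ 2)]
        _ = |(⟪v, f⟫_ℂ).im| := by rw [h2, abs_neg]
        _ ≤ _ := hfim
    have h3 : ‖v‖ * (|w.im| * ‖v‖) ≤ ‖v‖ * ‖f‖ := by nlinarith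
    exact le_of_mul_le_mul_left h3 h0
  have hRe : -w.re * ‖v‖ ≤ ‖f‖ := by
    have h1 := (abs_le.1 hfre).2
    have h3 : ‖v‖ * (-w.re * ‖v‖) ≤ ‖v‖ * ‖f‖ := by nlinarith
    exact le_of_mul_le_mul_left h3 h0
  have hG : η * ‖v‖ ≤ ‖w - (l : ℂ)‖ * ‖v‖ + ‖f‖ := by
    have h1 : (l : ℂ) • v + ((w - (l : ℂ)) • v + f) = w • v + f := by
      rw [← add_assoc, ← add_smul]; congr 2; ring
    have h2 := hgap v ((w - (l : ℂ)) • v + f) (by rw [h1]; exact hv)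
    refine h2.trans ((norm_add_le _ _).trans ?_)
    rw [norm_smul]
  have hηy : η / (8 * y + 4) ≤ η / 4 := by gcongr; linarith
  by_cases hA : ‖w - (l : ℂ)‖ ≤ η / 2
  · have h1 : ‖w - (l : ℂ)‖ * ‖v‖ ≤ η / 2 * ‖v‖ := by gcongr
    have h2 : η / 2 * ‖v‖ ≤ ‖f‖ := by linarith
    have h3 : η / (8 * y + 4) * ‖v‖ ≤ η / 2 * ‖v‖ := by gcongr; linarith
    linarith
  by_cases hB : w.re ≤ -(1 / 2)
  · have h3 : η / (8 * y + 4) * ‖v‖ ≤ 1 / 2 * ‖v‖ := by gcongr; linarith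
    nlinarith
  push Not at hA hB
  -- the third case
  have hp : 1 / 2 ≤ (w.re - (l - 1) / 2) + s := by rw [hs]; linarith
  have hvv : |w.im| ≤ 1 / 2 := by rw [hwim, abs_le]; constructor <;> linarith
  have hcc : (w.re - (l - 1) / 2) ^ 2 + (w.im - y) ^ 2 = s ^ 2 + y ^ 2 := by
    rw [hwre, hwim]; rw [← hc]; ring
  have h5 := circ_gap l s y _ _ hs0 hy0 hcc hvv hp
  have h6 : ‖w - (l : ℂ)‖ ≤ |w.re - (l - 1) / 2 - s| + |w.im| := by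
    have h7 := Complex.norm_le_abs_re_add_abs_im (w - (l : ℂ))
    rw [Complex.sub_re, Complex.sub_im, Complex.ofReal_re, Complex.ofReal_im, sub_zero] at h7
    have h8 : w.re - (l - 1) / 2 - s = w.re - l := by rw [hs]; ring
    rw [h8]; exact h7
  have h9 : η / 2 ≤ |w.im| * (4 * y + 2) := by linarith
  have h10 : η / (8 * y + 4) ≤ |w.im| := by
    rw [div_le_iff₀ hden]; linarith
  calc η / (8 * y + 4) * ‖v‖ ≤ |w.im| * ‖v‖ := by gcongr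
    _ ≤ ‖f‖ := hIm

end Pool.Agent.W761.CP
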