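import Pool.Agent.W761.CP.Defs

/-!
# One level: geometry of the circle, smallness, and the multiplier
-/

set_option autoImplicit false

open MeasureTheory
open scoped ENNReal FourierTransform SchwartzMap InnerProductSpace

namespace Pool.Agent.W761.CP
open Pool.Agent.Helper209.CX (Ed L2d InH1 dirichlet IsHu)

/-- exponential decay beats powers -/
theorem small (a C : ℝ) (k : ℕ) (ha : 0 < a) (hC : 0 ≤ C) : ∃ h₀ : ℝ, 0 < h₀ ∧
    ∀ h : ℝ, 0 < h → h < h₀ → C * Real.exp (-(a / h)) ≤ h ^ k := by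
  refine ⟨a ^ (k + 1) / ((C + 1) * (Nat.factorial (k + 1))), by positivity, fun h hh hh0 => ?_⟩
  have hfac : (0 : ℝ) < Nat.factorial (k + 1) := by exact_mod_cast Nat.factorial_pos _
  have h1 : (a / h) ^ (k + 1) / Nat.factorial (k + 1) ≤ Real.exp (a / h) :=
    Real.pow_div_factorial_le_exp _ (by positivity) _
  rw [lt_div_iff₀ (by positivity)] at hh0
  rw [Real.exp_neg, ← div_eq_mul_inv, div_le_iff₀ (Real.exp_pos _)]
  have h2 : h ^ k * ((a / h) ^ (k + 1) / Nat.factorial (k + 1)) ≤ h ^ k * Real.exp (a / h) :=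
    mul_le_mul_of_nonneg_left h1 (by positivity)
  refine le_trans ?_ h2
  have h3 : h ^ k * ((a / h) ^ (k + 1) / Nat.factorial (k + 1)) =
      a ^ (k + 1) / (h * Nat.factorial (k + 1)) := by
    rw [div_pow]
    field_simp
    ring
  rw [h3, le_div_iff₀ (by positivity)]
  nlinarith [hh0, hC, hfac, hh, mul_pos hh hfac]

/-- geometry of the circle: centre `z₀ = c₀ + (1+y₀) i`, radius `ρ` -/
theorem circ_im (s y ρ : ℝ) (hs : 0 < s) (hy : y = s ^ 2) (hρ : 0 ≤ ρ)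
    (hρ2 : ρ ^ 2 = s ^ 2 + y ^ 2) (z z₀ : ℂ) (him : z₀.im = 1 + y) (hz : ‖z - z₀‖ ≤ ρ) :
    1 / 2 ≤ z.im := by
  have h1 : |(z - z₀).im| ≤ ρ := (Complex.abs_im_le_norm _).trans hz
  have h2 : ρ ≤ y + 1 / 2 := by
    apply le_of_sq_le_sq _ (by rw [hy]; positivity)
    rw [hρ2]; nlinarith
  rw [Complex.sub_im, him] at h1
  have h3 := (abs_le.1 h1).1
  linarith

theorem circ_re (M l s y ρ : ℝ) (hM : 24 ≤ M) (hl1 : M / 12 ≤ l) (hl2 : l ≤ M / 6)
    (hs : s = (l + 1) / 2) (hy : y = s ^ 2) (hρ : 0 ≤ ρ)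
    (hρ2 : ρ ^ 2 = s ^ 2 + y ^ 2) (z z₀ : ℂ) (him : z₀.im = 1 + y) (hre : z₀.re = (l - 1) / 2)
    (hz : ‖z - z₀‖ ≤ ρ) (hi : z.im ≤ 3 / 2) : z.re ≤ M / 2 := by
  have h1 : (z.re - z₀.re) ^ 2 + (z.im - z₀.im) ^ 2 ≤ ρ ^ 2 := by
    have h2 : ‖z - z₀‖ ^ 2 ≤ ρ ^ 2 := by gcongr
    rw [← Complex.normSq_eq_norm_sq, Complex.normSq_apply, Complex.sub_re, Complex.sub_im] at h2
    nlinarith
  have hs1 : 3 / 2 ≤ s := by rw [hs]; linarith
  have hy1 : 9 / 4 ≤ y := by rw [hy]; nlinarith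
  rw [him, hre] at h1
  have h3 : (y - 1 / 2) ^ 2 ≤ (z.im - (1 + y)) ^ 2 := by nlinarith
  have h4 : (z.re - (l - 1) / 2) ^ 2 ≤ 2 * s ^ 2 := by nlinarith
  have h5 : z.re - (l - 1) / 2 ≤ 3 / 2 * s := by
    apply le_of_sq_le_sq _ (by positivity)
    nlinarith
  rw [hs] at h5
  linarith

/-- on the circle the imaginary part controls the distance to `l` -/
theorem circ_gap (l s y : ℝ) (p v : ℝ) (hs : 0 < s) (hy : 0 ≤ y)
    (hc : p ^ 2 + (v - y) ^ 2 = s ^ 2 + y ^ 2) (hv : |v| ≤ 1 / 2) (hp : 1 / 2 ≤ p + s) :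
    |p - s| + |v| ≤ |v| * (4 * y + 2) := by
  have h1 : (p - s) * (p + s) = v * (2 * y - v) := by nlinarith
  have h2 : |p - s| * (p + s) = |v| * |2 * y - v| := by
    rw [← abs_mul, ← h1, abs_mul, abs_of_pos (by linarith : 0 < p + s)]
  have h3 : |2 * y - v| ≤ 2 * y + 1 / 2 := by
    rw [abs_le] at hv ⊢
    constructor <;> linarith [hv.1, hv.2]
  have h4 : |p - s| * (1 / 2) ≤ |v| * (2 * y + 1 / 2) := by
    calc |p - s| * (1 / 2) ≤ |p - s| * (p + s) := by gcongr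
      _ = |v| * |2 * y - v| := h2
      _ ≤ |v| * (2 * y + 1 / 2) := by gcongr
  nlinarith [abs_nonneg v]

variable {d : ℕ}

theorem mulR_ae (χ : Ed d → ℝ) (hm : Measurable χ) (h0 : ∀ x, 0 ≤ χ x) (h1 : ∀ x, χ x ≤ 1)
    (u : L2d d) : ∀ᵐ x, mulR χ u x = (χ x : ℂ) * u x := by
  have hmem : MemLp (fun x => (χ x : ℂ) * u x) 2 volume := by
    refine MemLp.of_le (Lp.memLp u) ?_ (Filter.Eventually.of_forall fun x => ?_)
    · exact ((Complex.measurable_ofReal.comp hm).aestronglyMeasurable).mul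
        (Lp.aestronglyMeasurable u)
    · rw [norm_mul, Complex.norm_real, Real.norm_eq_abs, abs_of_nonneg (h0 x)]
      exact mul_le_of_le_one_left (norm_nonneg _) (h1 x)
  unfold mulR
  rw [dif_pos hmem]
  exact hmem.coeFn_toLp

theorem mulR_sum (χ : Ed d → ℝ) (hm : Measurable χ) (h0 : ∀ x, 0 ≤ χ x) (h1 : ∀ x, χ x ≤ 1)
    {n : ℕ} (s : Fin n → ℂ) (ψ : Fin n → L2d d) :
    mulR χ (∑ j, s j • ψ j) = ∑ j, s j • mulR χ (ψ j) := by
  have hadd : ∀ u v : L2d d, mulR χ (u + v) = mulR χ u + mulR χ v := by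
    intro u v
    apply Lp.ext
    filter_upwards [mulR_ae χ hm h0 h1 (u + v), mulR_ae χ hm h0 h1 u, mulR_ae χ hm h0 h1 v,
      Lp.coeFn_add u v, Lp.coeFn_add (mulR χ u) (mulR χ v)] with x e1 e2 e3 e4 e5
    rw [e1, e5, Pi.add_apply, e2, e3, e4, Pi.add_apply, mul_add]
  have hsmul : ∀ (c : ℂ) (u : L2d d), mulR χ (c • u) = c • mulR χ u := by
    intro c u
    apply Lp.ext
    filter_upwards [mulR_ae χ hm h0 h1 (c • u), mulR_ae χ hm h0 h1 u,
      Lp.coeFn_smul c u, Lp.coeFn_smul c (mulR χ u)] with x e1 e2 e4 e5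
    rw [e1, e5, Pi.smul_apply, e2, e4, Pi.smul_apply, smul_eq_mul, smul_eq_mul]
    ring
  let L : L2d d →ₗ[ℂ] L2d d := { toFun := mulR χ, map_add' := hadd, map_smul' := hsmul }
  show L (∑ j, s j • ψ j) = ∑ j, s j • L (ψ j)
  rw [map_sum]
  simp only [map_smul]

end Pool.Agent.W761.CP
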