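import Pool.Agent.W761.CP.LT

/-!
# One level: assembly
-/

set_option autoImplicit false

open MeasureTheory
open scoped ENNReal FourierTransform SchwartzMap InnerProductSpace

namespace Pool.Agent.W761.CP
open Pool.Agent.Helper209.CX (Ed L2d InH1 dirichlet IsHu)

variable {d : ℕ}

/-- the inner product with complex conjugates -/
theorem star_inner (x y : L2d d) : ⟪star x, star y⟫_ℂ = ⟪y, x⟫_ℂ := by
  rw [L2.inner_def, L2.inner_def]
  refine integral_congr_ae ?_
  filter_upwards [Lp.coeFn_star x, Lp.coeFn_star y] with a hx hy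
  rw [hx, hy, Pi.star_apply, Pi.star_apply, RCLike.inner_apply, RCLike.inner_apply]
  simp only [RCLike.star_def, RCLike.conj_conj]
  ring

theorem star_smul' (c : ℂ) (x : L2d d) : star (c • x) = (starRingEnd ℂ) c • star x := by
  apply Lp.ext
  filter_upwards [Lp.coeFn_star (c • x), Lp.coeFn_star x, Lp.coeFn_smul c x,
    Lp.coeFn_smul ((starRingEnd ℂ) c) (star x)] with a h1 h2 h3 h4
  rw [h1, h4, Pi.star_apply, Pi.smul_apply, h2, h3, Pi.star_apply, Pi.smul_apply, smul_eq_mul,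
    smul_eq_mul, star_mul']
  rfl

theorem star_add' (x y : L2d d) : star (x + y) = star x + star y := by
  apply Lp.ext
  filter_upwards [Lp.coeFn_star (x + y), Lp.coeFn_star x, Lp.coeFn_star y, Lp.coeFn_add x y,
    Lp.coeFn_add (star x) (star y)] with a h1 h2 h3 h4 h5
  rw [h1, h5, Pi.star_apply, Pi.add_apply, h2, h3, h4, Pi.star_apply, Pi.star_apply, Pi.add_apply,
    star_add]

theorem star_sub' (x y : L2d d) : star (x - y) = star x - star y := by
  have h := star_add' (x - y) y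
  rw [sub_add_cancel] at h
  exact eq_sub_of_add_eq h.symm

theorem comp_of_fin {X : Type} [NormedAddCommGroup X] [InnerProductSpace ℂ X] (Q : X →L[ℂ] X)
    (hfin : FiniteDimensional ℂ (LinearMap.range (Q : X →ₗ[ℂ] X))) : IsCompactOperator Q := by
  have := hfin
  have : ProperSpace (LinearMap.range (Q : X →ₗ[ℂ] X)) := FiniteDimensional.proper ℂ _
  let Q' : X →L[ℂ] (LinearMap.range (Q : X →ₗ[ℂ] X)) :=
    Q.codRestrict _ (fun u => ⟨u, rfl⟩)
  have h1 : IsCompactOperator Q' := isCompactOperator_of_locallyCompactSpace_dom Q'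
  exact h1.clm_comp (LinearMap.range (Q : X →ₗ[ℂ] X)).subtypeL

/-- a perturbation of an orthonormal family stays independent under the projection -/
theorem dim_le {X : Type} [NormedAddCommGroup X] [InnerProductSpace ℂ X] (P : X →L[ℂ] X)
    (hfin : FiniteDimensional ℂ (LinearMap.range (P : X →ₗ[ℂ] X))) {n : ℕ} (ψ w : Fin n → X)
    (hψ : Orthonormal ℂ ψ) (ε : ℝ) (hε : ∀ j, ‖P (w j) - ψ j‖ ≤ ε) (hn : n * ε < 1) :
    n ≤ Module.finrank ℂ (LinearMap.range (P : X →ₗ[ℂ] X)) := by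
  have := hfin
  have hli : LinearIndependent ℂ (fun j => (⟨P (w j), ⟨w j, rfl⟩⟩ :
      LinearMap.range (P : X →ₗ[ℂ] X))) := by
    rw [Fintype.linearIndependent_iff]
    intro s hs
    have hs' : ∑ j, s j • P (w j) = 0 := by
      have := congrArg Subtype.val hs
      simpa using this
    set x : X := ∑ j, s j • ψ j with hx
    have hsx : ∀ j, ‖s j‖ ≤ ‖x‖ := by
      intro j
      have h1 : ⟪ψ j, x⟫_ℂ = s j := by
        rw [hx]; exact hψ.inner_right_fintype s j
      rw [← h1]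
      refine (norm_inner_le_norm _ _).trans ?_
      rw [hψ.1 j, one_mul]
    have hx0 : ‖x‖ ≤ (n * ε) * ‖x‖ := by
      have h2 : x = ∑ j, s j • (ψ j - P (w j)) := by
        simp only [smul_sub, Finset.sum_sub_distrib]
        rw [hs', sub_zero]
      calc ‖x‖ = ‖∑ j, s j • (ψ j - P (w j))‖ := by rw [← h2]
        _ ≤ ∑ j : Fin n, ‖x‖ * ε := by
          refine norm_sum_le_of_le _ fun j _ => ?_
          rw [norm_smul, norm_sub_rev]
          exact mul_le_mul (hsx j) (hε j) (norm_nonneg _) (norm_nonneg _)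
        _ = (n * ε) * ‖x‖ := by
          rw [Finset.sum_const, Finset.card_univ, Fintype.card_fin, nsmul_eq_mul]; ring
    have hx1 : ‖x‖ = 0 := by
      by_contra hne
      have h3 : 0 < ‖x‖ := lt_of_le_of_ne (norm_nonneg _) (Ne.symm hne)
      nlinarith
    intro j
    have := hsx j
    rw [hx1] at this
    exact norm_le_zero_iff.1 this
  have := hli.fintype_card_le_finrank
  rwa [Fintype.card_fin] at this

theorem star_zero' : star (0 : L2d d) = 0 := by
  have h := star_add' (0 : L2d d) 0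
  rw [add_zero] at h
  exact left_eq_add.1 h

/-- resolvents for the full operator with a finite dimensional projection added -/
theorem res_of_ap (HEXT : S_EXT) (HRES : S_RES) (HSYM : S_SYM) {h : ℝ} (hh : 0 < h)
    {V : Ed d → ℂ} (hV : FB V) (hre : ∀ x, 0 ≤ (V x).re)
    (H : Submodule ℂ (L2d d × L2d d)) (hH : ∀ u f, (u, f) ∈ H ↔ Hu h V u f)
    (B : L2d d →L[ℂ] L2d d) (hBsa : ∀ u v, ⟪B u, v⟫_ℂ = ⟪u, B v⟫_ℂ)
    (hBpos : ∀ u, 0 ≤ (⟪u, B u⟫_ℂ).re) (hBst : ∀ u, B (star u) = star (B u))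
    (z : ℂ) (K : ℝ) (hK : 0 ≤ K)
    (hap : ∀ u f : L2d d, Hu h V u (z • u - B u + f) → ‖u‖ ≤ K * ‖f‖) :
    ∃ R, IsR (plusB H B) z R ∧ ‖R‖ ≤ K := by
  obtain ⟨T, hT1, hT2, -⟩ := HRES d h V B hh hV hre hBpos
  refine HEXT (L2d d) (plusB H B) star T z K star_add' star_smul' star_star
    star_inner ?_ ⟨?_, ?_⟩ hK ?_
  · intro u f v g huf hvg
    rw [mem_plusB, hH] at huf hvg
    have h1 := (HSYM d h V hV u _ v _ huf hvg).1
    rw [inner_sub_right] at h1
    have h2 : star (g - B v) = star g - star (B v) := star_sub' _ _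
    rw [h2, inner_sub_left] at h1
    have h3 : ⟪star v, B u⟫_ℂ = ⟪star (B v), u⟫_ℂ := by rw [← hBst, hBsa]
    rw [h3] at h1
    exact sub_left_injective h1
  · intro f
    rw [mem_plusB, hH]
    have := hT1 f
    rwa [show f + (-1 : ℂ) • T f - B (T f) = f - T f - B (T f) by rw [neg_one_smul]; abel]
  · intro u f huf
    rw [mem_plusB, hH] at huf
    refine hT2 u f ?_
    rwa [show f + (-1 : ℂ) • u - B u = f - u - B u by rw [neg_one_smul]; abel] at huf
  · intro u f huf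
    rw [mem_plusB, hH] at huf
    refine hap u f ?_
    rwa [show f + z • u - B u = z • u - B u + f by abel] at huf

theorem mem_plusB_zero (H : Submodule ℂ (L2d d × L2d d)) :
    plusB H (0 : L2d d →L[ℂ] L2d d) = H := by
  ext ⟨u, f⟩
  rw [mem_plusB]
  simp

/-- one level -/
theorem lt (HIN : S_IN) (HAPR : S_APR) (HQUA : S_QUA) (HKAP : S_KAP) (HRZ : S_RZ)
    (HMAT : S_MAT) (HEXT : S_EXT) (HRES : S_RES) (HSUB : S_SUB) (HSYM : S_SYM) (HE0 : S_E0)
    (HPOI : S_POI) (HPOT : S_POT) : S_LT := by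
  intro d hd
  obtain ⟨c, hc, HIN⟩ := HIN d hd
  obtain ⟨C0, hC0, HPOI⟩ := HPOI d hd
  refine ⟨c, hc, fun W M χ b φ a hW hM hL => ?_⟩
  obtain ⟨C1, h1, hC1, hh1, hh11, HIN⟩ := HIN W M χ b φ a hW hM hL
  obtain ⟨C2, h2, hC2, hh2, HAPR⟩ := HAPR d W M χ b φ a hW (by linarith) hL
  obtain ⟨C3, h3, hC3, hh3, HQUA⟩ := HQUA d W M χ b φ a hW (by linarith) hL
  obtain ⟨hVV, hVin, -, -, -, -⟩ := HPOT d W M χ b φ a hW (by linarith) hL
  -- constants
  set y1 : ℝ := M ^ 2 with hy1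
  set ce : ℝ := 1 / (C1 * (8 * y1 + 4)) with hce
  have hce0 : 0 < ce := by positivity
  obtain ⟨h4, hh4, hs4⟩ := small a (C2 / ce) (2 * d) hL.apos (by positivity)
  set C5 : ℝ := C3 * (2 * (2 * M ^ 4) * (2 * C2 / ce ^ 2) * C1 + 1) * (C1 + 1) with hC5
  have hC50 : 0 ≤ C5 := by positivity
  obtain ⟨h5, hh5, hs5⟩ := small a (2 * C5) (7 * d) hL.apos (by positivity)
  refine ⟨min (min h1 h2) (min h3 (min h4 h5)), by positivity, fun h hh hlt => ?_⟩
  simp only [lt_min_iff] at hlt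
  obtain ⟨⟨hlt1, hlt2⟩, hlt3, hlt4, hlt5⟩ := hlt
  have hh1' : h ≤ 1 := by linarith
  obtain ⟨l, η, n, ψ, E, hl1, hl2, hη, hη1, hηh, hn1, hn2, hgap, hψ, hE⟩ := HIN h hh hlt1
  -- the circle
  set s : ℝ := (l + 1) / 2 with hs
  set y : ℝ := s ^ 2 with hy
  set ρ : ℝ := Real.sqrt (s ^ 2 + y ^ 2) with hρ
  set z₀ : ℂ := ⟨(l - 1) / 2, 1 + y⟩ with hz₀
  have hs1 : 3 / 2 ≤ s := by rw [hs]; linarith
  have hs2 : s ≤ M := by rw [hs]; linarith
  have hy0 : 0 < y := by rw [hy]; positivity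
  have hyM : y ≤ y1 := by rw [hy, hy1]; gcongr
  have hρ2 : ρ ^ 2 = s ^ 2 + y ^ 2 := by rw [hρ, Real.sq_sqrt (by positivity)]
  have hρ0 : 0 < ρ := by rw [hρ]; positivity
  have hρM : ρ ^ 2 ≤ 2 * M ^ 4 := by
    rw [hρ2]
    have e1 : s ^ 2 ≤ M ^ 2 := by gcongr
    have e2 : y ^ 2 ≤ (M ^ 2) ^ 2 := by gcongr
    have e3 : M ^ 2 ≤ M ^ 4 := pow_le_pow_right₀ (by linarith) (by norm_num)
    nlinarith
  have hz0re : z₀.re = (l - 1) / 2 := rfl
  have hz0im : z₀.im = 1 + y := rfl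
  -- the lower bound for the gap
  set e : ℝ := ce * h ^ (2 * d) with he
  have he0 : 0 < e := by positivity
  have heη : e ≤ η / (8 * y + 4) := by
    rw [he, hce, le_div_iff₀ (by positivity)]
    have e1 : (8 * y + 4) ≤ (8 * y1 + 4) := by linarith
    have e2 : (8 * y1 + 4) ≠ 0 := by positivity
    calc 1 / (C1 * (8 * y1 + 4)) * h ^ (2 * d) * (8 * y + 4)
        ≤ 1 / (C1 * (8 * y1 + 4)) * (C1 * η) * (8 * y1 + 4) := by gcongr
      _ = η := by field_simp
  have he1 : e ≤ 1 := by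
    refine heη.trans ?_
    rw [div_le_one (by positivity)]
    linarith
  have hCe : C2 * Real.exp (-(a / h)) ≤ e := by
    have e1 := hs4 h hh hlt4
    rw [div_mul_eq_mul_div, div_le_iff₀ hce0] at e1
    rw [he]; linarith
  set K : ℝ := 2 * C2 / e ^ 2 with hK
  have hK0 : 0 < K := by positivity
  have hK2 : 2 ≤ K := by
    rw [hK, le_div_iff₀ (by positivity)]
    have : e ^ 2 ≤ 1 := pow_le_one₀ he0.le he1
    linarith
  -- the linear relation
  obtain ⟨H, hH, hH0⟩ := HSUB d h (VV W) hVV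
  have hre : ∀ x, 0 ≤ (VV W x).re := fun x => by rw [VV_re]; exact hW.nonneg x
  have hi0 : ∀ x, 0 ≤ (VV W x).im := fun x => (VV_im W x).1
  have hi1 : ∀ x, (VV W x).im ≤ 1 := fun x => (VV_im W x).2
  -- a priori bound on the circle
  have hap : ∀ z : ℂ, ‖z - z₀‖ = ρ → ∀ u f : L2d d, Hu h (VV W) u (z • u + f) →
      ‖u‖ ≤ K * ‖f‖ := by
    intro z hz u f hu
    have hzim := circ_im s y ρ (by linarith) hy hρ0.le hρ2 z z₀ hz0im hz.le
    rcases le_or_gt (3 / 2) z.im with h32 | h32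
    · have e1 := ap_high HE0 hVV hi0 hi1 z h32 u f 0 (by simp) (by rwa [sub_zero])
      exact e1.trans (by gcongr)
    · have hzre := circ_re M l s y ρ hM hl1 hl2 hs hy hρ0.le hρ2 z z₀ hz0im hz0re hz.le h32.le
      have hc : (z.re - (l - 1) / 2) ^ 2 + (z.im - (1 + y)) ^ 2 = s ^ 2 + y ^ 2 := by
        rw [← hρ2, ← hz, ← Complex.normSq_eq_norm_sq, Complex.normSq_apply, Complex.sub_re,
          Complex.sub_im, hz0re, hz0im]
        ring
      have hg : ∀ v f : L2d d, Hu h (Vin W M χ) v ((z - Complex.I) • v + f) →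
          e * ‖v‖ ≤ ‖f‖ := fun v f hv =>
        (mul_le_mul_of_nonneg_right heη (norm_nonneg v)).trans
          (inner_gap HE0 HSYM hVin (by linarith) hW.nonneg l η s y hs (by linarith) hy hη hη1 hgap
            z hzim h32.le hc v f hv)
      have e1 := HAPR h hh hlt2 e he0 he1 hCe z hzim hzre hg u f hu
      refine e1.trans ?_
      gcongr
      rw [hK]
      gcongr
      linarith
  -- resolvent at -1 and on the circle
  have hT := res_of_ap HEXT HRES HSYM hh hVV hre H hH 0 (by simp) (by simp)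
    (by intro u; simp [star_zero'])
  rw [mem_plusB_zero] at hT
  obtain ⟨T, hT1, hT2, -⟩ := HRES d h (VV W) 0 hh hVV hre (by simp)
  have hTR : IsR H (-1) T := by
    refine ⟨fun f => ?_, fun u f huf => ?_⟩
    · rw [hH]
      have := hT1 f
      rwa [show f + (-1 : ℂ) • T f = f - T f - (0 : L2d d →L[ℂ] L2d d) (T f) by
        rw [neg_one_smul]; simp; abel]
    · rw [hH] at huf
      refine hT2 u f ?_
      rwa [show f + (-1 : ℂ) • u = f - u - (0 : L2d d →L[ℂ] L2d d) u by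
        rw [neg_one_smul]; simp; abel] at huf
  -- the projection on the cells
  set m : ℕ := ⌈Real.sqrt (4 * C0 * M) / h⌉₊ + 1 with hm
  have hm1 : 1 ≤ m := by omega
  obtain ⟨Q, hQ⟩ := HPOI m hm1
  have hmh : 4 * C0 * M ≤ m ^ 2 * h ^ 2 := by
    have e1 : Real.sqrt (4 * C0 * M) / h ≤ m := by
      rw [hm]; push_cast
      have := Nat.le_ceil (Real.sqrt (4 * C0 * M) / h)
      linarith
    rw [div_le_iff₀ hh] at e1
    calc 4 * C0 * M = Real.sqrt (4 * C0 * M) ^ 2 := (Real.sq_sqrt (by positivity)).symm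
      _ ≤ (m * h) ^ 2 := by gcongr
      _ = m ^ 2 * h ^ 2 := by ring
  set B : L2d d →L[ℂ] L2d d := ((4 * M : ℝ) : ℂ) • Q with hB
  have hBapp : ∀ u, B u = ((4 * M : ℝ) : ℂ) • Q u := fun u => rfl
  have hBsa : ∀ u v, ⟪B u, v⟫_ℂ = ⟪u, B v⟫_ℂ := by
    intro u v
    rw [hBapp, hBapp, inner_smul_left, inner_smul_right, hQ.sa, Complex.conj_ofReal]
  have hQQ : ∀ u, ⟪u, Q u⟫_ℂ = ((‖Q u‖ ^ 2 : ℝ) : ℂ) := by
    intro u
    rw [← hQ.idem u, ← hQ.sa, hQ.idem, inner_self_eq_norm_sq_to_K]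
    norm_cast
  have hBin : ∀ u, ⟪u, B u⟫_ℂ = ((4 * M * ‖Q u‖ ^ 2 : ℝ) : ℂ) := by
    intro u
    rw [hBapp, inner_smul_right, hQQ]
    push_cast; ring
  have hBpos : ∀ u, 0 ≤ (⟪u, B u⟫_ℂ).re := by
    intro u
    rw [hBin, Complex.ofReal_re]
    positivity
  have hBst : ∀ u, B (star u) = star (B u) := by
    intro u
    rw [hBapp, hBapp, hQ.conj, star_smul', Complex.conj_ofReal]
  have hBcomp : IsCompactOperator B := by
    have e1 : IsCompactOperator Q := comp_of_fin Q hQ.fin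
    exact e1.smul ((4 * M : ℝ) : ℂ)
  obtain ⟨P, hP1, hP2, hP3, hP4, hP5⟩ := HRZ (L2d d) H z₀ (-1) ρ K T B hρ0 hK0.le (by
      apply lt_of_pow_lt_pow_left₀ 2 (norm_nonneg _)
      rw [hρ2, ← Complex.normSq_eq_norm_sq, Complex.normSq_apply, Complex.sub_re, Complex.sub_im,
        hz0re, hz0im, Complex.neg_re, Complex.neg_im, Complex.one_re, Complex.one_im]
      have : (-1 - (l - 1) / 2) = -s := by rw [hs]; ring
      rw [this]
      nlinarith) hTR
    (fun z hz => hT z K hK0.le fun u f hu => hap z hz u f (by simpa using hu)) hBcomp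
    ⟨8, fun z hz => res_of_ap HEXT HRES HSYM hh hVV hre H hH B hBsa hBpos hBst z 8 (by norm_num)
      fun u f hu => by
        have hzim := circ_im s y ρ (by linarith) hy hρ0.le hρ2 z z₀ hz0im hz
        rcases le_or_gt (3 / 2) z.im with h32 | h32
        · have e1 := ap_high HE0 hVV hi0 hi1 z h32 u f (B u) (by rw [hBin, Complex.ofReal_im]) hu
          linarith [norm_nonneg f]
        · have hzre := circ_re M l s y ρ hM hl1 hl2 hs hy hρ0.le hρ2 z z₀ hz0im hz0re hz h32.le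
          exact (HKAP d h M C0 m Q (VV W) u f z hh (by linarith) hC0 hm1 hVV hre hQ hmh hzre
            hu).1 hi1 (VV_im0 W) hzim⟩
  obtain ⟨u, A, hu1, hu2, hu3, hu4⟩ := HMAT (L2d d) H (-1) T P hH0 hTR hP1 hP2 hP3
  refine ⟨_, u, A, ?_, hu1, fun j => (hH _ _).1 (hu3 j), ?_⟩
  · -- the dimension
    refine hn1.trans ?_
    have hh7 : 0 < h ^ (7 * d) := by positivity
    have hexp0 : 0 ≤ Real.exp (-(a / h)) := (Real.exp_pos _).le
    set ε : ℝ := C3 * Real.exp (-(a / h)) *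
      (2 * (2 * M ^ 4) * (2 * C2 / ce ^ 2) * C1 / h ^ (6 * d) + 1) with hε
    have hdim := dim_le P hP2 ψ (fun j => mulR χ (ψ j)) hψ ε (fun j => ?_) ?_
    · exact_mod_cast hdim
    · obtain ⟨hE1, hE2, hE3⟩ := hE j
      obtain ⟨r, hr1, hr2, hr3⟩ := HQUA h hh hlt3 (ψ j) (E j) hE2 (by linarith) hE1
      rw [hψ.1 j, mul_one] at hr2 hr3
      have hnsq : ‖((E j : ℂ) + Complex.I) - z₀‖ ^ 2 = (E j - (l - 1) / 2) ^ 2 + y ^ 2 := by
        rw [← Complex.normSq_eq_norm_sq, Complex.normSq_apply, Complex.sub_re, Complex.sub_im,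
          hz0re, hz0im]
        simp
        ring
      have hdiff : η * s ≤ ρ ^ 2 - ‖((E j : ℂ) + Complex.I) - z₀‖ ^ 2 := by
        rw [hnsq, hρ2]
        have e1 : |E j - (l - 1) / 2| ≤ s - η := by
          rw [abs_le, hs]; constructor <;> linarith
        have e2 : (E j - (l - 1) / 2) ^ 2 ≤ (s - η) ^ 2 := by
          rw [← sq_abs]; gcongr
        nlinarith
      have hnn := norm_nonneg (((E j : ℂ) + Complex.I) - z₀)
      have hηs : 0 < η * s := by positivity
      have hlt0 : ‖((E j : ℂ) + Complex.I) - z₀‖ < ρ := by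
        apply lt_of_pow_lt_pow_left₀ 2 hρ0.le
        linarith
      have hgap2 : η * s / (2 * ρ) ≤ ρ - ‖((E j : ℂ) + Complex.I) - z₀‖ := by
        rw [div_le_iff₀ (by positivity)]
        nlinarith
      have h9 := hP5 _ r _ hlt0 ((hH _ _).2 hr1)
      have h10 : ρ * K * ‖r‖ / (ρ - ‖((E j : ℂ) + Complex.I) - z₀‖) ≤
          2 * (2 * M ^ 4) * K / η * ‖r‖ := by
        calc ρ * K * ‖r‖ / (ρ - ‖((E j : ℂ) + Complex.I) - z₀‖)
            ≤ ρ * K * ‖r‖ / (η * s / (2 * ρ)) := by gcongr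
          _ = 2 * ρ ^ 2 * K / (η * s) * ‖r‖ := by field_simp
          _ ≤ 2 * (2 * M ^ 4) * K / (η * 1) * ‖r‖ := by gcongr; linarith
          _ = 2 * (2 * M ^ 4) * K / η * ‖r‖ := by rw [mul_one]
      have h11 : 1 / η ≤ C1 / h ^ (2 * d) := by
        rw [div_le_div_iff₀ hη (by positivity)]; linarith
      have h12 : 2 * (2 * M ^ 4) * K / η ≤ 2 * (2 * M ^ 4) * (2 * C2 / ce ^ 2) * C1 /
          h ^ (6 * d) := by
        have e1 : K = (2 * C2 / ce ^ 2) / h ^ (4 * d) := by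
          rw [hK, he]
          have : (ce * h ^ (2 * d)) ^ 2 = ce ^ 2 * h ^ (4 * d) := by
            rw [mul_pow, ← pow_mul]; congr 2; ring
          rw [this]; field_simp
        have e2 : h ^ (6 * d) = h ^ (4 * d) * h ^ (2 * d) := by rw [← pow_add]; congr 1; ring
        calc 2 * (2 * M ^ 4) * K / η = 2 * (2 * M ^ 4) * K * (1 / η) := by ring
          _ ≤ 2 * (2 * M ^ 4) * K * (C1 / h ^ (2 * d)) := by gcongr
          _ = 2 * (2 * M ^ 4) * (2 * C2 / ce ^ 2) * C1 / h ^ (6 * d) := by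
            rw [e1, e2]; field_simp
      calc ‖P (mulR χ (ψ j)) - ψ j‖
          = ‖(P (mulR χ (ψ j)) - mulR χ (ψ j)) + (mulR χ (ψ j) - ψ j)‖ := by congr 1; abel
        _ ≤ ‖P (mulR χ (ψ j)) - mulR χ (ψ j)‖ + ‖mulR χ (ψ j) - ψ j‖ := norm_add_le _ _
        _ ≤ 2 * (2 * M ^ 4) * (2 * C2 / ce ^ 2) * C1 / h ^ (6 * d) *
              (C3 * Real.exp (-(a / h))) + C3 * Real.exp (-(a / h)) := by
            refine add_le_add (h9.trans (h10.trans ?_)) hr3
            gcongr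
        _ = ε := by rw [hε]; ring
    · have h13 := hs5 h hh hlt5
      have h14 : (n : ℝ) ≤ C1 / h ^ d := by rw [le_div_iff₀ (by positivity)]; exact hn2
      have h15 : 2 * (2 * M ^ 4) * (2 * C2 / ce ^ 2) * C1 / h ^ (6 * d) + 1 ≤
          (2 * (2 * M ^ 4) * (2 * C2 / ce ^ 2) * C1 + 1) / h ^ (6 * d) := by
        rw [add_div]
        gcongr
        rw [le_div_iff₀ (by positivity), one_mul]
        exact pow_le_one₀ hh.le hh1'
      have h16 : (n : ℝ) * ε ≤ C5 * Real.exp (-(a / h)) / h ^ (7 * d) := by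
        have e2 : h ^ (7 * d) = h ^ d * h ^ (6 * d) := by rw [← pow_add]; congr 1; ring
        calc (n : ℝ) * ε ≤ (C1 / h ^ d) * (C3 * Real.exp (-(a / h)) *
              ((2 * (2 * M ^ 4) * (2 * C2 / ce ^ 2) * C1 + 1) / h ^ (6 * d))) := by
              rw [hε]; gcongr
          _ = (C3 * (2 * (2 * M ^ 4) * (2 * C2 / ce ^ 2) * C1 + 1) * C1) *
              Real.exp (-(a / h)) / h ^ (7 * d) := by rw [e2]; field_simp
          _ ≤ C5 * Real.exp (-(a / h)) / h ^ (7 * d) := by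
            rw [hC5]; gcongr; linarith
      have h17 : C5 * Real.exp (-(a / h)) / h ^ (7 * d) ≤ 1 / 2 := by
        rw [div_le_iff₀ hh7]; linarith
      linarith
  · -- the eigenvalues
    intro z hz
    obtain ⟨v, hv0, hPv, hvH⟩ := hu4 z hz
    have hz1 := hP4 v z hv0 hPv hvH
    have hzim := circ_im s y ρ (by linarith) hy hρ0.le hρ2 z z₀ hz0im hz1.le
    have hvv := (hH _ _).1 hvH
    have e1 := e0_im HE0 hVV hi0 hi1 hvv
    have e2 := e0_re HE0 hVV hre hvv
    have hnv : 0 < ‖v‖ ^ 2 := by have := norm_pos_iff.2 hv0; positivity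
    have e3 : ⟪v, z • v⟫_ℂ = z * ((‖v‖ ^ 2 : ℝ) : ℂ) := by
      rw [inner_smul_right, inner_self_eq_norm_sq_to_K]; norm_cast
    rw [e3, Complex.mul_im, Complex.ofReal_re, Complex.ofReal_im, mul_zero, zero_add] at e1
    rw [e3, Complex.mul_re, Complex.ofReal_re, Complex.ofReal_im, mul_zero, sub_zero] at e2
    have hz2 : z.im ≤ 1 := by
      by_contra hcon
      push Not at hcon
      nlinarith [e1.2]
    have hz3 : 0 ≤ z.re := by
      by_contra hcon
      push Not at hcon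
      nlinarith
    have hz4 := circ_re M l s y ρ hM hl1 hl2 hs hy hρ0.le hρ2 z z₀ hz0im hz0re hz1.le
      (by linarith)
    exact ⟨hzim, hz2, hz3, by linarith⟩

end Pool.Agent.W761.CP
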